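import Pool.Agent.R688.FPR.Order

set_option autoImplicit false

/-!
# The order of an element along the primes of a regular ring is bounded
-/

universe u v w

namespace Pool.Agent.R688.FPR

open IsLocalRing TensorProduct Pool.Agent.W418.LU2

section

variable {R : Type u} [CommRing R]

/-- elements outside all minimal primes are nonzero in the local rings -/
theorem algebraMap_ne_zero (P : Ideal R) [P.IsPrime]
    [IsRegularLocalRing (Localization.AtPrime P)] {c : R}
    (hc : ∀ p ∈ minimalPrimes R, c ∉ p) :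
    algebraMap R (Localization.AtPrime P) c ≠ 0 := by
  intro h0
  have hd := Pool.Agent.H379R3.isDomain (Localization.AtPrime P)
  set p₀ := RingHom.ker (algebraMap R (Localization.AtPrime P)) with hp₀
  have hprime : p₀.IsPrime := RingHom.ker_isPrime _
  have hle : p₀ ≤ P := by
    intro r hr
    have h1 : algebraMap R (Localization.AtPrime P) r = 0 := hr
    by_contra hrP
    have h2 : IsUnit (algebraMap R (Localization.AtPrime P) r) :=
      IsLocalization.map_units (Localization.AtPrime P) (⟨r, hrP⟩ : P.primeCompl)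
    rw [h1] at h2
    exact not_isUnit_zero h2
  refine hc p₀ ?_ h0
  refine ⟨⟨hprime, bot_le⟩, ?_⟩
  rintro p' ⟨hp', -⟩ hle' r hr
  have h1 : algebraMap R (Localization.AtPrime P) r = 0 := hr
  rw [IsLocalization.map_eq_zero_iff P.primeCompl] at h1
  obtain ⟨s, hs⟩ := h1
  have h2 : (s : R) * r ∈ p' := by rw [hs]; exact Ideal.zero_mem _
  rcases hp'.mem_or_mem h2 with h3 | h3
  · exact absurd (hle (hle' h3)) s.2
  · exact h3

variable [IsNoetherianRing R]

omit [IsNoetherianRing R] in
/-- regular parameters of the local ring which come from the ring -/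
theorem exists_params (P : Ideal R) [P.IsPrime] [IsRegularLocalRing (Localization.AtPrime P)] :
    ∃ (h : ℕ) (x : Fin h → R), (∀ i, x i ∈ P) ∧
      Ideal.span (Set.range fun i => algebraMap R (Localization.AtPrime P) (x i)) =
        maximalIdeal (Localization.AtPrime P) ∧
      Ind fun i => algebraMap R (Localization.AtPrime P) (x i) := by
  have h0 : Ind (fun i : Fin 0 => (i.elim0 : Localization.AtPrime P)) :=
    ⟨fun i => i.elim0, fun _ _ i => i.elim0⟩
  obtain ⟨h, w, hw, hd⟩ := h0.extend
  have hr : Set.range (Sum.elim (fun i : Fin 0 => (i.elim0 : Localization.AtPrime P)) w) =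
      Set.range w := by
    ext z
    constructor
    · rintro ⟨i | i, rfl⟩
      · exact i.elim0
      · exact ⟨i, rfl⟩
    · rintro ⟨i, rfl⟩
      exact ⟨Sum.inr i, rfl⟩
  rw [hr] at hw
  rw [Fintype.card_fin, zero_add] at hd
  choose z hz using fun i => IsLocalization.surj P.primeCompl (w i)
  have hspan : Ideal.span (Set.range fun i => algebraMap R (Localization.AtPrime P) (z i).1) =
      maximalIdeal (Localization.AtPrime P) := by
    rw [← hw]
    apply le_antisymm
    · rw [Ideal.span_le]
      rintro _ ⟨i, rfl⟩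
      change algebraMap R (Localization.AtPrime P) (z i).1 ∈ _
      rw [← hz i]
      exact Ideal.mul_mem_right _ _ (Ideal.subset_span ⟨i, rfl⟩)
    · rw [Ideal.span_le]
      rintro _ ⟨i, rfl⟩
      have h1 := IsLocalization.map_units (Localization.AtPrime P) (z i).2
      obtain ⟨u, hu⟩ := h1
      have h2 : w i = ↑(u⁻¹) * algebraMap R (Localization.AtPrime P) (z i).1 := by
        rw [← hz i, ← hu, mul_comm (w i), ← mul_assoc, Units.inv_mul, one_mul]
      change w i ∈ _
      rw [h2]
      exact Ideal.mul_mem_left _ _ (Ideal.subset_span ⟨i, rfl⟩)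
  have hmem : ∀ i, (z i).1 ∈ P := by
    intro i
    rw [← IsLocalization.AtPrime.to_map_mem_maximal_iff (Localization.AtPrime P) P, ← hspan]
    exact Ideal.subset_span ⟨i, rfl⟩
  refine ⟨h, fun i => (z i).1, hmem, hspan, ind_of_span hspan ?_⟩
  rw [hd, Fintype.card_fin]

omit [IsNoetherianRing R] in
theorem prod_notMem {P : Ideal R} [hP : P.IsPrime] {ι : Type*} (s : Finset ι) (g : ι → R)
    (h : ∀ i ∈ s, g i ∉ P) : ∏ i ∈ s, g i ∉ P := by
  intro h1
  obtain ⟨i, hi, h2⟩ := (hP.prod_mem_iff).1 h1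
  exact h i hi h2

/-- a denominator for the parameters -/
theorem exists_denom (P : Ideal R) [P.IsPrime] (I : Ideal R)
    (h : P.map (algebraMap R (Localization.AtPrime P)) ≤
      I.map (algebraMap R (Localization.AtPrime P))) :
    ∃ g ∉ P, ∀ y ∈ P, g * y ∈ I := by
  classical
  obtain ⟨T, hT⟩ := (isNoetherianRing_iff_ideal_fg R).1 inferInstance P
  have h1 : ∀ t ∈ P, ∃ g ∉ P, g * t ∈ I := by
    intro t ht
    have h2 := h (Ideal.mem_map_of_mem _ ht)
    rw [IsLocalization.algebraMap_mem_map_algebraMap_iff P.primeCompl] at h2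
    obtain ⟨g, hg, hg2⟩ := h2
    exact ⟨g, hg, hg2⟩
  have hTP : ∀ t ∈ T, t ∈ P := fun t ht => by rw [← hT]; exact Ideal.subset_span ht
  choose! g hg hg2 using h1
  refine ⟨∏ t ∈ T, g t, prod_notMem T g fun t ht => hg t (hTP t ht), fun y hy => ?_⟩
  rw [← hT] at hy
  induction hy using Submodule.span_induction with
  | mem t ht =>
    rw [← Finset.mul_prod_erase T g ht, mul_comm (g t), mul_assoc]
    exact Ideal.mul_mem_left _ _ (hg2 t (hTP t ht))
  | zero => rw [mul_zero]; exact Ideal.zero_mem _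
  | add a b _ _ ha hb => rw [mul_add]; exact Ideal.add_mem _ ha hb
  | smul a b _ hb => 
    rw [smul_eq_mul, mul_left_comm]
    exact Ideal.mul_mem_left _ _ hb

omit [IsNoetherianRing R] in
/-- the generic part of the locus of `P` -/
theorem generic_bound [hR : IsRegularRing R] (P : Ideal R) [hP : P.IsPrime] {f₀ : R} (hf₀ : f₀ ∉ P)
    (hopen : ∀ (Q : Ideal R) [Q.IsPrime], P ≤ Q → f₀ ∉ Q →
      IsRegularLocalRing (Localization.AtPrime Q ⧸ P.map (algebraMap R (Localization.AtPrime Q))))
    {c : R} (hc : ∀ p ∈ minimalPrimes R, c ∉ p) :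
    ∃ g ∉ P, ∃ N : ℕ, ∀ (Q : Ideal R) [Q.IsPrime], P ≤ Q → g ∉ Q →
      algebraMap R (Localization.AtPrime Q) c ∉ maximalIdeal (Localization.AtPrime Q) ^ N := by
  classical
  set A := Localization.AtPrime P with hA
  have hreg : IsRegularLocalRing A := hR.isRegularLocalRing_localization P
  obtain ⟨h, x, hxP, hspan, hind⟩ := exists_params P
  have hmapP : P.map (algebraMap R A) = maximalIdeal A :=
    (Localization.AtPrime.map_eq_maximalIdeal (I := P))
  have hmapx : (Ideal.span (Set.range x)).map (algebraMap R A) = maximalIdeal A := by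
    rw [Ideal.map_span, ← Set.range_comp]
    exact hspan
  obtain ⟨g₁, hg₁, hg₁'⟩ := exists_denom P (Ideal.span (Set.range x)) (by rw [hmapP, hmapx])
  -- the order of `c` at `P`
  have hc0 : algebraMap R A c ≠ 0 := algebraMap_ne_zero P hc
  have hex : ∃ k : ℕ, algebraMap R A c ∉ maximalIdeal A ^ k := by
    by_contra hcon
    push Not at hcon
    have h2 := Ideal.iInf_pow_eq_bot_of_isLocalRing (R := A) (maximalIdeal A)
      (Ideal.IsPrime.ne_top inferInstance)
    have h3 : algebraMap R A c ∈ (⊥ : Ideal A) := by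
      rw [← h2]
      exact (Submodule.mem_iInf _).2 hcon
    exact hc0 ((Submodule.mem_bot A).1 h3)
  obtain ⟨n, hn1, hn2⟩ : ∃ n : ℕ, algebraMap R A c ∈ maximalIdeal A ^ n ∧
      algebraMap R A c ∉ maximalIdeal A ^ (n + 1) := by
    have h1 := Nat.find_spec hex
    have h0 : Nat.find hex ≠ 0 := by
      intro h0
      rw [h0, pow_zero, Ideal.one_eq_top] at h1
      exact h1 trivial
    obtain ⟨n, hn⟩ := Nat.exists_eq_succ_of_ne_zero h0
    refine ⟨n, ?_, ?_⟩
    · by_contra h2
      have h3 := Nat.find_min' hex h2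
      omega
    · rw [hn] at h1
      exact h1
  have h1 := hn1
  rw [← hmapx, ← Ideal.map_pow, IsLocalization.algebraMap_mem_map_algebraMap_iff P.primeCompl] at h1
  obtain ⟨s, hs, hs2⟩ := h1
  obtain ⟨a, ha⟩ := (mem_pow_iff x n _).1 hs2
  have hxm : ∀ m ∈ TT (ι := Fin h) n, mo x m ∈ Ideal.span (Set.range x) ^ n := by
    intro m hm
    rw [pow_eq_In]
    exact Ideal.subset_span ⟨m, mem_TT.1 hm, rfl⟩
  obtain ⟨m₀, hm₀, ham₀⟩ : ∃ m₀ ∈ TT (ι := Fin h) n, a m₀ ∉ P := by
    by_contra hcon
    push Not at hcon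
    apply hn2
    have h2 : s * c ∈ P * Ideal.span (Set.range x) ^ n := by
      rw [ha]
      exact Ideal.sum_mem _ fun m hm => Ideal.mul_mem_mul (hcon m hm) (hxm m hm)
    have h3 := Ideal.mem_map_of_mem (algebraMap R A) h2
    rw [Ideal.map_mul, Ideal.map_pow, hmapx, hmapP, ← pow_succ', map_mul] at h3
    exact (Ideal.unit_mul_mem_iff_mem _ (IsLocalization.map_units A (⟨s, hs⟩ : P.primeCompl))).1 h3
  refine ⟨g₁ * s * a m₀ * f₀, ?_, n + 1, fun Q hQ hPQ hgQ hcQ => ?_⟩
  · intro h2
    rcases hP.mem_or_mem h2 with h2 | h2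
    · rcases hP.mem_or_mem h2 with h2 | h2
      · rcases hP.mem_or_mem h2 with h2 | h2
        · exact hg₁ h2
        · exact hs h2
      · exact ham₀ h2
    · exact hf₀ h2
  · have hg1Q : g₁ ∉ Q := fun h2 => hgQ (Ideal.mul_mem_right _ _ (Ideal.mul_mem_right _ _
      (Ideal.mul_mem_right _ _ h2)))
    have haQ : a m₀ ∉ Q := fun h2 => hgQ (Ideal.mul_mem_right _ _ (Ideal.mul_mem_left _ _ h2))
    have hfQ : f₀ ∉ Q := fun h2 => hgQ (Ideal.mul_mem_left _ _ h2)
    have hregQ : IsRegularLocalRing (Localization.AtPrime Q) :=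
      hR.isRegularLocalRing_localization Q
    have hPx : P.map (algebraMap R (Localization.AtPrime Q)) =
        Ideal.span (Set.range fun i => algebraMap R (Localization.AtPrime Q) (x i)) := by
      apply le_antisymm
      · rw [Ideal.map_le_iff_le_comap]
        intro y hy
        rw [Ideal.mem_comap]
        have h2 := Ideal.mem_map_of_mem (algebraMap R (Localization.AtPrime Q)) (hg₁' y hy)
        rw [map_mul, Ideal.unit_mul_mem_iff_mem _
          (IsLocalization.map_units (Localization.AtPrime Q) (⟨g₁, hg1Q⟩ : Q.primeCompl)),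
          Ideal.map_span, ← Set.range_comp] at h2
        exact h2
      · rw [Ideal.span_le]
        rintro _ ⟨i, rfl⟩
        exact Ideal.mem_map_of_mem _ (hxP i)
    have hindQ := ind_transfer hPQ (hopen Q hPQ hfQ) x hind hPx
    apply order_le hindQ (fun m => algebraMap R (Localization.AtPrime Q) (a m)) hm₀
      (IsLocalization.map_units (Localization.AtPrime Q) (⟨a m₀, haQ⟩ : Q.primeCompl))
    have h2 : ∑ m ∈ TT (ι := Fin h) n, algebraMap R (Localization.AtPrime Q) (a m) *
        mo (fun i => algebraMap R (Localization.AtPrime Q) (x i)) m =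
        algebraMap R (Localization.AtPrime Q) (s * c) := by
      rw [ha, map_sum]
      refine Finset.sum_congr rfl fun m _ => ?_
      rw [map_mul]
      congr 1
      unfold mo
      rw [map_prod]
      exact Finset.prod_congr rfl fun i _ => (map_pow _ _ _).symm
    rw [h2, map_mul]
    exact Ideal.mul_mem_left _ _ hcQ

omit [IsNoetherianRing R] in
/-- the order is bounded -/
theorem bounded_order [hR : IsRegularRing R]
    (hopen : ∀ (P : Ideal R) [P.IsPrime], ∃ f₀ ∉ P, ∀ (Q : Ideal R) [Q.IsPrime], P ≤ Q → f₀ ∉ Q →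
      IsRegularLocalRing (Localization.AtPrime Q ⧸ P.map (algebraMap R (Localization.AtPrime Q))))
    {c : R} (hc : ∀ p ∈ minimalPrimes R, c ∉ p) :
    ∃ N : ℕ, ∀ (Q : Ideal R) [Q.IsPrime],
      algebraMap R (Localization.AtPrime Q) c ∉ maximalIdeal (Localization.AtPrime Q) ^ N := by
  have main : ∀ I : Ideal R, ∃ N : ℕ, ∀ (Q : Ideal R) [Q.IsPrime], I ≤ Q →
      algebraMap R (Localization.AtPrime Q) c ∉ maximalIdeal (Localization.AtPrime Q) ^ N := by
    intro I
    induction I using (IsNoetherian.induction (R := R) (M := R)) with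
    | hgt I ih =>
      change Ideal R at I
      by_cases hI : Ideal.IsPrime I
      · obtain ⟨f₀, hf₀, hf⟩ := hopen I
        obtain ⟨g, hg, N₁, hN₁⟩ := generic_bound I hf₀ hf hc
        obtain ⟨N₂, hN₂⟩ := ih (I ⊔ Ideal.span {g}) (by
          rw [gt_iff_lt, left_lt_sup, Ideal.span_singleton_le_iff_mem]
          exact hg)
        refine ⟨max N₁ N₂, fun Q _ hIQ hcQ => ?_⟩
        by_cases hgQ : g ∈ Q
        · exact hN₂ Q (sup_le hIQ ((Ideal.span_singleton_le_iff_mem _).2 hgQ))
            (Ideal.pow_le_pow_right (le_max_right _ _) hcQ)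
        · exact hN₁ Q hIQ hgQ (Ideal.pow_le_pow_right (le_max_left _ _) hcQ)
      · rcases Ideal.not_isPrime_iff.1 hI with h1 | ⟨a, ha, b, hb, hab⟩
        · refine ⟨0, fun Q hQ hIQ => ?_⟩
          rw [h1, top_le_iff] at hIQ
          exact absurd hIQ hQ.ne_top
        · obtain ⟨N₁, hN₁⟩ := ih (I ⊔ Ideal.span {a}) (by
            rw [gt_iff_lt, left_lt_sup, Ideal.span_singleton_le_iff_mem]
            exact ha)
          obtain ⟨N₂, hN₂⟩ := ih (I ⊔ Ideal.span {b}) (by
            rw [gt_iff_lt, left_lt_sup, Ideal.span_singleton_le_iff_mem]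
            exact hb)
          refine ⟨max N₁ N₂, fun Q hQ hIQ hcQ => ?_⟩
          rcases hQ.mem_or_mem (hIQ hab) with h2 | h2
          · exact hN₁ Q (sup_le hIQ ((Ideal.span_singleton_le_iff_mem _).2 h2))
              (Ideal.pow_le_pow_right (le_max_left _ _) hcQ)
          · exact hN₂ Q (sup_le hIQ ((Ideal.span_singleton_le_iff_mem _).2 h2))
              (Ideal.pow_le_pow_right (le_max_right _ _) hcQ)
  obtain ⟨N, hN⟩ := main ⊥
  exact ⟨N, fun Q _ => hN Q bot_le⟩

end

end Pool.Agent.R688.FPR
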