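import Pool.Agent.R688.FPR.Mono

set_option autoImplicit false

/-!
# Quasi-regularity of sequences that are regular in every order
-/

universe u v w

namespace Pool.Agent.R688.FPR

open IsLocalRing Pool.Agent.W418.LU2

section

variable {A : Type u} [CommRing A] {ι : Type v} [Fintype ι] [DecidableEq ι] (x : ι → A)

/-- the sequence is regular in every order -/
def HP : Prop := ∀ (U : Finset ι) (i : ι), i ∉ U → ∀ f, x i * f ∈ Ideal.span (x '' U) →
    f ∈ Ideal.span (x '' U)

omit [DecidableEq ι] in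
theorem mo_add (m n : ι → ℕ) : mo x (m + n) = mo x m * mo x n := by
  unfold mo
  rw [← Finset.prod_mul_distrib]
  exact Finset.prod_congr rfl fun i _ => by rw [Pi.add_apply, pow_add]

theorem mo_single (i : ι) (n : ℕ) : mo x (Pi.single i n) = x i ^ n := by
  unfold mo
  rw [Finset.prod_eq_single i]
  · rw [Pi.single_eq_same]
  · intro j _ hj
    rw [Pi.single_eq_of_ne hj, pow_zero]
  · intro h; exact absurd (Finset.mem_univ _) h

theorem In_single_one : In x (Set.range fun i : ι => Pi.single i 1) = Ideal.span (Set.range x) := by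
  unfold In
  congr 1
  rw [← Set.range_comp]
  congr 1
  funext i
  simp only [Function.comp_apply]
  rw [mo_single, pow_one]

/-- the powers of the ideal are monomial ideals -/
theorem pow_eq_In (k : ℕ) :
    Ideal.span (Set.range x) ^ k = In x {m | ∑ i, m i = k} := by
  induction k with
  | zero =>
    rw [pow_zero, Ideal.one_eq_top]
    symm
    rw [Ideal.eq_top_iff_one, ← mo_zero x]
    exact Ideal.subset_span ⟨0, by simp, rfl⟩
  | succ k ih =>
    rw [pow_succ, ih]
    unfold In
    rw [Ideal.span_mul_span']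
    congr 1
    ext z
    constructor
    · rintro ⟨_, ⟨m, hm, rfl⟩, _, ⟨i, rfl⟩, rfl⟩
      refine ⟨m + Pi.single i 1, ?_, ?_⟩
      · simp only [Set.mem_ofPred_eq, Pi.add_apply, Finset.sum_add_distrib] at hm ⊢
        rw [hm, Finset.sum_pi_single', if_pos (Finset.mem_univ _)]
      · change mo x (m + Pi.single i 1) = mo x m * x i
        rw [mo_add, mo_single, pow_one]
    · rintro ⟨m, hm, rfl⟩
      simp only [Set.mem_ofPred_eq] at hm
      obtain ⟨i, hi⟩ : ∃ i, 1 ≤ m i := by
        by_contra hcon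
        have h1 : ∑ i, m i = 0 := Finset.sum_eq_zero fun i _ => by
          by_contra h2
          exact hcon ⟨i, Nat.one_le_iff_ne_zero.2 h2⟩
        omega
      refine ⟨mo x (dv i m), ⟨dv i m, ?_, rfl⟩, x i, ⟨i, rfl⟩, ?_⟩
      · simp only [Set.mem_ofPred_eq]
        have h2 : ∑ l, dv i m l + 1 = ∑ l, m l := by
          rw [← Finset.add_sum_erase Finset.univ m (Finset.mem_univ i),
            ← Finset.add_sum_erase Finset.univ (dv i m) (Finset.mem_univ i)]
          have h3 : ∑ l ∈ Finset.univ.erase i, dv i m l =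
              ∑ l ∈ Finset.univ.erase i, m l := Finset.sum_congr rfl fun l hl => by
            rw [dv_ne (Finset.ne_of_mem_erase hl)]
          rw [h3, dv_same]
          omega
        omega
      · change mo x (dv i m) * x i = mo x m
        rw [mo_succ x i m hi, mul_comm]

/-- the exponents of degree `k` -/
def TT (k : ℕ) : Finset (ι → ℕ) := Finset.piAntidiag (Finset.univ : Finset ι) k

theorem mem_TT {k : ℕ} {m : ι → ℕ} : m ∈ TT (ι := ι) k ↔ ∑ i, m i = k := by
  unfold TT
  rw [Finset.mem_piAntidiag]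
  exact ⟨fun h => h.1, fun h => ⟨h, fun i _ => Finset.mem_univ i⟩⟩

theorem mem_pow_iff (k : ℕ) (z : A) : z ∈ Ideal.span (Set.range x) ^ k ↔
    ∃ a : (ι → ℕ) → A, z = ∑ m ∈ TT (ι := ι) k, a m * mo x m := by
  rw [pow_eq_In]
  unfold In
  have h : {m : ι → ℕ | ∑ i, m i = k} = ((TT (ι := ι) k : Finset (ι → ℕ)) : Set (ι → ℕ)) := by
    ext m
    simp only [Set.mem_ofPred_eq, Finset.mem_coe]
    exact mem_TT.symm
  rw [h]
  constructor
  · intro hz
    rw [Ideal.span, Submodule.mem_span_image_finset_iff_exists_fun] at hz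
    obtain ⟨a, ha⟩ := hz
    refine ⟨fun m => if h : m ∈ TT (ι := ι) k then a ⟨m, h⟩ else 0, ?_⟩
    rw [← ha, ← Finset.sum_attach (TT (ι := ι) k), Finset.univ_eq_attach]
    refine Finset.sum_congr rfl fun m _ => ?_
    have h2 : (if h : (m : ι → ℕ) ∈ TT (ι := ι) k then a ⟨m, h⟩ else 0) = a m := dif_pos m.2
    change a m • mo x ↑m = (if h : (m : ι → ℕ) ∈ TT (ι := ι) k then a ⟨m, h⟩ else 0) * mo x ↑m
    rw [h2]
    rfl
  · rintro ⟨a, rfl⟩
    exact Ideal.sum_mem _ fun m hm => Ideal.mul_mem_left _ _ (Ideal.subset_span ⟨m, hm, rfl⟩)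

/-- quasi-regularity -/
theorem qr (hP : HP x) (k : ℕ) (a : (ι → ℕ) → A)
    (h : ∑ m ∈ TT (ι := ι) k, a m * mo x m ∈ Ideal.span (Set.range x) ^ (k + 1)) :
    ∀ m ∈ TT (ι := ι) k, a m ∈ Ideal.span (Set.range x) := by
  intro m₀ hm₀
  obtain ⟨b, hb⟩ := (mem_pow_iff x (k + 1) _).1 h
  refine colon x hP _ m₀ rfl (((TT (ι := ι) (k + 1) : Finset _) : Set (ι → ℕ)) ∪
    (((TT (ι := ι) k).erase m₀ : Finset _) : Set (ι → ℕ)))
    ((Finset.finite_toSet _).union (Finset.finite_toSet _)) ?_ (a m₀) ?_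
  · rintro n (hn | hn) hle
    · have h1 := mem_TT.1 (Finset.mem_coe.1 hn)
      have h2 := mem_TT.1 hm₀
      have h3 : ∑ i, n i ≤ ∑ i, m₀ i := Finset.sum_le_sum fun i _ => hle i
      omega
    · rw [Finset.mem_coe, Finset.mem_erase] at hn
      apply hn.1
      have h1 := mem_TT.1 hn.2
      have h2 := mem_TT.1 hm₀
      have h3 : ∑ i, n i = ∑ i, m₀ i := by rw [h1, h2]
      have h4 := (Finset.sum_eq_sum_iff_of_le fun i _ => hle i).1 h3
      funext i
      exact h4 i (Finset.mem_univ i)
  · have h1 : mo x m₀ * a m₀ = ∑ m ∈ TT (ι := ι) (k + 1), b m * mo x m -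
        ∑ m ∈ (TT (ι := ι) k).erase m₀, a m * mo x m := by
      rw [← hb, ← Finset.add_sum_erase _ _ hm₀]
      ring
    rw [h1]
    refine Ideal.sub_mem _ (Ideal.sum_mem _ fun m hm => Ideal.mul_mem_left _ _ ?_)
      (Ideal.sum_mem _ fun m hm => Ideal.mul_mem_left _ _ ?_)
    · exact Ideal.subset_span ⟨m, Or.inl hm, rfl⟩
    · exact Ideal.subset_span ⟨m, Or.inr hm, rfl⟩

/-- powers of the elements of the sequence -/
theorem HP.pow (hP : HP x) (q : ℕ) : HP fun i => x i ^ q := by
  intro U i hi f hf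
  have e : Ideal.span ((fun i => x i ^ q) '' (U : Set ι)) =
      In x ((fun j : ι => (Pi.single j q : ι → ℕ)) '' (U : Set ι)) := by
    unfold In
    congr 1
    rw [Set.image_image]
    exact Set.image_congr fun j _ => (mo_single x j q).symm
  rw [e] at hf ⊢
  have step : ∀ g, x i * g ∈ In x ((fun j : ι => (Pi.single j q : ι → ℕ)) '' (U : Set ι)) →
      g ∈ In x ((fun j : ι => (Pi.single j q : ι → ℕ)) '' (U : Set ι)) := by
    intro g hg
    have h1 := key x hP U ∅ i (Finset.disjoint_empty_right _) hi (Finset.notMem_empty _)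
      ((fun j : ι => (Pi.single j q : ι → ℕ)) '' (U : Set ι))
      ((Finset.finite_toSet U).image _) (by
        rintro _ ⟨j, hj, rfl⟩ l hl
        have hne : l ≠ j := fun h => hl (h ▸ hj)
        change (Pi.single j q : ι → ℕ) l = 0
        rw [Pi.single_eq_of_ne hne]) g (Submodule.mem_sup_left hg)
    rwa [Finset.coe_empty, Set.image_empty, Ideal.span_empty, sup_bot_eq] at h1
  have hall : ∀ (n : ℕ) (g : A),
      x i ^ n * g ∈ In x ((fun j : ι => (Pi.single j q : ι → ℕ)) '' (U : Set ι)) →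
      g ∈ In x ((fun j : ι => (Pi.single j q : ι → ℕ)) '' (U : Set ι)) := by
    intro n
    induction n with
    | zero => intro g hg; simpa using hg
    | succ n ih =>
      intro g hg
      apply ih g
      apply step
      rwa [pow_succ', mul_assoc] at hg
  exact hall q f hf

end

end Pool.Agent.R688.FPR
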