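import Pool.Agent.R688.FPR.Pure2
import Pool.Agent.R688.FPR.Qr

set_option autoImplicit false

/-!
# Frobenius push forward
-/

universe u v w

namespace Pool.Agent.R688.FPR

open IsLocalRing TensorProduct

/-- `F^e_* R`: the additive group of `R` as an `R`-module through the `e`-th Frobenius. -/
def FrobPush (R : Type u) [CommRing R] (_p _e : ℕ) : Type u := R

namespace FrobPush

variable (R : Type u) [CommRing R] (p e : ℕ)

instance : AddCommGroup (FrobPush R p e) := inferInstanceAs (AddCommGroup R)

/-- the identity map `R → F^e_* R` -/
def of : R ≃+ FrobPush R p e := AddEquiv.refl R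

instance [ExpChar R p] : Module R (FrobPush R p e) :=
  Module.compHom R (iterateFrobenius R p e)

variable {R p e}

theorem smul_of [ExpChar R p] (r x : R) :
    r • of R p e x = of R p e (r ^ p ^ e * x) := by
  change (iterateFrobenius R p e r) * x = r ^ p ^ e * x
  rw [iterateFrobenius_def]

theorem mem_smul_top [ExpChar R p] (I : Ideal R) (z : R) :
    of R p e z ∈ I • (⊤ : Submodule R (FrobPush R p e)) ↔
      z ∈ I.map (iterateFrobenius R p e) := by
  constructor
  · intro h
    have key : ∀ w : FrobPush R p e, w ∈ I • (⊤ : Submodule R (FrobPush R p e)) →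
        (of R p e).symm w ∈ I.map (iterateFrobenius R p e) := by
      intro w hw
      induction hw using Submodule.smul_induction_on' with
      | smul r hr y _ =>
        obtain ⟨y, rfl⟩ := (of R p e).surjective y
        rw [smul_of, AddEquiv.symm_apply_apply]
        refine Ideal.mul_mem_right _ _ ?_
        rw [← iterateFrobenius_def]
        exact Ideal.mem_map_of_mem _ hr
      | add a _ b _ ha hb =>
        rw [map_add]
        exact Ideal.add_mem _ ha hb
    simpa using key _ h
  · intro h
    induction h using Submodule.span_induction with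
    | mem v hv =>
      obtain ⟨r, hr, rfl⟩ := hv
      have h1 : of R p e (iterateFrobenius R p e r) = r • of R p e 1 := by
        rw [smul_of, mul_one, iterateFrobenius_def]
      rw [h1]
      exact Submodule.smul_mem_smul hr trivial
    | zero => rw [map_zero]; exact Submodule.zero_mem _
    | add v w _ _ hv hw => rw [map_add]; exact Submodule.add_mem _ hv hw
    | smul a v _ hv =>
      -- multiplication by `a` on the target is linear
      let μ : FrobPush R p e →ₗ[R] FrobPush R p e :=
        { toFun := fun w => of R p e (a * (of R p e).symm w)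
          map_add' := fun x y => by rw [map_add, mul_add, map_add]
          map_smul' := fun r w => by
            obtain ⟨w, rfl⟩ := (of R p e).surjective w
            rw [smul_of, AddEquiv.symm_apply_apply, AddEquiv.symm_apply_apply, RingHom.id_apply,
              smul_of]
            congr 1
            ring }
      have h1 : of R p e (a • v) = μ (of R p e v) := by
        change _ = of R p e (a * (of R p e).symm (of R p e v))
        rw [AddEquiv.symm_apply_apply]
        rfl
      rw [h1]
      have h2 : I • (⊤ : Submodule R (FrobPush R p e)) ≤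
          (I • (⊤ : Submodule R (FrobPush R p e))).comap μ := by
        rw [← Submodule.map_le_iff_le_comap, Submodule.map_smul'']
        exact Submodule.smul_mono le_rfl le_top
      exact h2 hv

end FrobPush

section

variable {A : Type u} [CommRing A] {ι : Type v} [Fintype ι] [DecidableEq ι] (x : ι → A)
  (p e : ℕ) [ExpChar A p]

omit [Fintype ι] [DecidableEq ι] in
theorem map_pow_frob (k : ℕ) : (Ideal.span (Set.range x) ^ k).map (iterateFrobenius A p e) =
    Ideal.span (Set.range fun i => x i ^ p ^ e) ^ k := by
  rw [Ideal.map_pow, Ideal.map_span, ← Set.range_comp]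
  congr 2

theorem QF_frob (hP : HP x) : QF (Ideal.span (Set.range x)) (FrobPush A p e) := by
  intro B _ b hind k
  have hind' : ∀ s : B → A, ∑ i, s i ^ p ^ e * (FrobPush.of A p e).symm (b i) ∈
      Ideal.span (Set.range fun i => x i ^ p ^ e) → ∀ i, s i ∈ Ideal.span (Set.range x) := by
    intro s hs
    apply hind s
    have h1 : ∑ i, s i • b i = FrobPush.of A p e
        (∑ i, s i ^ p ^ e * (FrobPush.of A p e).symm (b i)) := by
      rw [map_sum]
      refine Finset.sum_congr rfl fun i _ => ?_
      rw [← FrobPush.smul_of, AddEquiv.apply_symm_apply]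
    rw [h1, FrobPush.mem_smul_top, ← pow_one (Ideal.span (Set.range x)), map_pow_frob, pow_one]
    exact hs
  have main : ∀ (k : ℕ) (s : B → A), ∑ i, s i ^ p ^ e * (FrobPush.of A p e).symm (b i) ∈
      Ideal.span (Set.range fun i => x i ^ p ^ e) ^ k →
      ∀ i, s i ∈ Ideal.span (Set.range x) ^ k := by
    intro k
    induction k with
    | zero => intro s _ i; rw [pow_zero, Ideal.one_eq_top]; trivial
    | succ k ih =>
      intro s hs
      have h1 := ih s (Ideal.pow_le_pow_right (Nat.le_succ k) hs)
      choose a ha using fun i => (mem_pow_iff x k (s i)).1 (h1 i)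
      have h2 : ∀ i, s i ^ p ^ e = ∑ m ∈ TT (ι := ι) k,
          a i m ^ p ^ e * mo (fun i => x i ^ p ^ e) m := by
        intro i
        rw [ha i, ← iterateFrobenius_def, map_sum]
        refine Finset.sum_congr rfl fun m _ => ?_
        rw [map_mul, iterateFrobenius_def, iterateFrobenius_def]
        unfold mo
        rw [← Finset.prod_pow]
        congr 1
        refine Finset.prod_congr rfl fun j _ => ?_
        rw [← pow_mul, ← pow_mul, mul_comm]
      have h3 : ∑ m ∈ TT (ι := ι) k, (∑ i, a i m ^ p ^ e * (FrobPush.of A p e).symm (b i)) *
          mo (fun i => x i ^ p ^ e) m ∈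
          Ideal.span (Set.range fun i => x i ^ p ^ e) ^ (k + 1) := by
        convert hs using 1
        simp_rw [h2, Finset.sum_mul]
        rw [Finset.sum_comm]
        refine Finset.sum_congr rfl fun i _ => ?_
        refine Finset.sum_congr rfl fun m _ => ?_
        ring
      have h4 := qr _ (hP.pow x (p ^ e)) k _ h3
      intro i
      rw [ha i, pow_succ']
      refine Ideal.sum_mem _ fun m hm => ?_
      refine Ideal.mul_mem_mul (hind' _ (h4 m hm) i) ?_
      rw [pow_eq_In]
      exact Ideal.subset_span ⟨m, mem_TT.1 hm, rfl⟩
  intro s hs
  apply main k s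
  have h1 : ∑ i, s i • b i = FrobPush.of A p e
      (∑ i, s i ^ p ^ e * (FrobPush.of A p e).symm (b i)) := by
    rw [map_sum]
    refine Finset.sum_congr rfl fun i _ => ?_
    rw [← FrobPush.smul_of, AddEquiv.apply_symm_apply]
  rwa [h1, FrobPush.mem_smul_top, map_pow_frob] at hs

end

end Pool.Agent.R688.FPR
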