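import Pool.Agent.R688.FPR.Bound

set_option autoImplicit false

/-!
# F-pure regularity of regular rings whose quotients are generically regular
-/

universe u v w

namespace Pool.Agent.R688.FPR

open IsLocalRing TensorProduct Pool.Agent.W418.LU2

section

/-- local purity -/
theorem local_pure {A : Type u} [CommRing A] [IsRegularLocalRing A] (p e : ℕ) [ExpChar A p]
    {c : A} {N : ℕ} (hN : N ≤ p ^ e) (hc : c ∉ maximalIdeal A ^ N)
    (P : Type w) [AddCommGroup P] [Module A P] (x : P)
    (h : x ⊗ₜ[A] (FrobPush.of A p e c) = 0) : x = 0 := by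
  classical
  have h0 : Ind (fun i : Fin 0 => (i.elim0 : A)) :=
    ⟨fun i => i.elim0, fun _ _ i => i.elim0⟩
  obtain ⟨k, w, hw, hd⟩ := h0.extend
  have hI : Ind (Sum.elim (fun i : Fin 0 => (i.elim0 : A)) w) := ind_of_span hw (by
    rw [hd, Fintype.card_sum, Fintype.card_fin, Fintype.card_fin])
  have hP : HP (Sum.elim (fun i : Fin 0 => (i.elim0 : A)) w) :=
    fun U i hi f hf => prm hI U i hi f hf
  have hQ := QF_frob _ p e hP
  rw [hw] at hQ
  refine tmul_all hQ (fun hmem => hc ?_) P x h
  rw [FrobPush.mem_smul_top] at hmem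
  have h1 : (maximalIdeal A).map (iterateFrobenius A p e) ≤ maximalIdeal A ^ N := by
    rw [Ideal.map_le_iff_le_comap]
    intro r hr
    rw [Ideal.mem_comap, iterateFrobenius_def]
    exact Ideal.pow_le_pow_right hN (Ideal.pow_mem_pow hr _)
  exact h1 hmem

/-- the comparison map with the localization -/
theorem exists_compare {R : Type u} [CommRing R] (p e : ℕ) [ExpChar R p] (Q : Ideal R) [Q.IsPrime]
    [ExpChar (Localization.AtPrime Q) p] (P : Type w) [AddCommGroup P] [Module R P] :
    ∃ θ : P ⊗[R] FrobPush R p e →+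
      (LocalizedModule Q.primeCompl P) ⊗[Localization.AtPrime Q]
        (FrobPush (Localization.AtPrime Q) p e),
      ∀ (x : P) (c : R), θ (x ⊗ₜ FrobPush.of R p e c) =
        (LocalizedModule.mkLinearMap Q.primeCompl P x) ⊗ₜ
          FrobPush.of _ p e (algebraMap R (Localization.AtPrime Q) c) := by
  let φ : FrobPush R p e →+ FrobPush (Localization.AtPrime Q) p e :=
    ((FrobPush.of (Localization.AtPrime Q) p e).toAddMonoidHom.comp
      (algebraMap R (Localization.AtPrime Q)).toAddMonoidHom).comp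
      (FrobPush.of R p e).symm.toAddMonoidHom
  have hφ : ∀ r c, φ (r • FrobPush.of R p e c) =
      algebraMap R (Localization.AtPrime Q) r • φ (FrobPush.of R p e c) := by
    intro r c
    rw [FrobPush.smul_of]
    change FrobPush.of (Localization.AtPrime Q) p e
      (algebraMap R (Localization.AtPrime Q) (r ^ p ^ e * c)) =
      algebraMap R (Localization.AtPrime Q) r • FrobPush.of (Localization.AtPrime Q) p e
        (algebraMap R (Localization.AtPrime Q) c)
    rw [FrobPush.smul_of, map_mul, map_pow]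
  let F : P →+ FrobPush R p e →+
      (LocalizedModule Q.primeCompl P) ⊗[Localization.AtPrime Q]
        (FrobPush (Localization.AtPrime Q) p e) :=
    { toFun := fun x =>
        { toFun := fun c => (LocalizedModule.mkLinearMap Q.primeCompl P x) ⊗ₜ φ c
          map_zero' := by rw [map_zero, TensorProduct.tmul_zero]
          map_add' := fun a b => by rw [map_add, TensorProduct.tmul_add] }
      map_zero' := by
        ext c
        change (LocalizedModule.mkLinearMap Q.primeCompl P 0) ⊗ₜ φ c = 0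
        rw [map_zero, TensorProduct.zero_tmul]
      map_add' := fun a b => by
        ext c
        change (LocalizedModule.mkLinearMap Q.primeCompl P (a + b)) ⊗ₜ φ c =
          (LocalizedModule.mkLinearMap Q.primeCompl P a) ⊗ₜ φ c +
          (LocalizedModule.mkLinearMap Q.primeCompl P b) ⊗ₜ φ c
        rw [map_add, TensorProduct.add_tmul] }
  have hF : ∀ (r : R) (x : P) (c : FrobPush R p e), F (r • x) c = F x (r • c) := by
    intro r x c
    obtain ⟨c, rfl⟩ := (FrobPush.of R p e).surjective c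
    change (LocalizedModule.mkLinearMap Q.primeCompl P (r • x)) ⊗ₜ φ (FrobPush.of R p e c) =
      (LocalizedModule.mkLinearMap Q.primeCompl P x) ⊗ₜ φ (r • FrobPush.of R p e c)
    rw [hφ, map_smul, ← TensorProduct.smul_tmul, algebraMap_smul]
  exact ⟨TensorProduct.liftAddHom F hF, fun x c => rfl⟩

theorem global_pure {R : Type u} [CommRing R] [hR : IsRegularRing R] (p : ℕ) [hp : Fact p.Prime]
    [CharP R p]
    (hopen : ∀ (P : Ideal R) [P.IsPrime], ∃ f₀ ∉ P, ∀ (Q : Ideal R) [Q.IsPrime], P ≤ Q → f₀ ∉ Q →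
      IsRegularLocalRing (Localization.AtPrime Q ⧸ P.map (algebraMap R (Localization.AtPrime Q))))
    {c : R} (hc : ∀ q ∈ minimalPrimes R, c ∉ q) :
    ∃ e₀ : ℕ, 1 ≤ e₀ ∧ ∀ e, e₀ ≤ e → ∀ (P : Type w) [AddCommGroup P] [Module R P] (x : P),
      x ⊗ₜ[R] (FrobPush.of R p e c) = 0 → x = 0 := by
  obtain ⟨N, hN⟩ := bounded_order hopen hc
  refine ⟨N + 1, Nat.le_add_left _ _, fun e he P _ _ x hx => ?_⟩
  by_contra hx0
  have hann : (LinearMap.toSpanSingleton R P x).ker ≠ ⊤ := by
    intro h1
    have h2 : (1 : R) ∈ (LinearMap.toSpanSingleton R P x).ker := by rw [h1]; trivial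
    rw [LinearMap.mem_ker, LinearMap.toSpanSingleton_apply, one_smul] at h2
    exact hx0 h2
  obtain ⟨Q, hQ, hle⟩ := Ideal.exists_le_maximal _ hann
  have hQp : Q.IsPrime := hQ.isPrime
  have hcharQ : CharP (Localization.AtPrime Q) p := by
    rw [CharP.charP_iff_prime_eq_zero hp.out]
    have h1 : (p : Localization.AtPrime Q) = algebraMap R _ (p : R) := by rw [map_natCast]
    rw [h1, CharP.cast_eq_zero, map_zero]
  have hregQ : IsRegularLocalRing (Localization.AtPrime Q) :=
    hR.isRegularLocalRing_localization Q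
  obtain ⟨θ, hθ⟩ := exists_compare p e Q P
  have h1 := congrArg θ hx
  rw [hθ, map_zero] at h1
  have hNe : N ≤ p ^ e := by
    have h2 : N < p ^ N := Nat.lt_pow_self hp.out.one_lt
    have h3 : p ^ N ≤ p ^ e := Nat.pow_le_pow_right hp.out.pos (by omega)
    omega
  have h2 := local_pure p e hNe (hN Q) _ _ h1
  rw [IsLocalizedModule.eq_zero_iff Q.primeCompl] at h2
  obtain ⟨s, hs⟩ := h2
  apply s.2
  apply hle
  rw [LinearMap.mem_ker, LinearMap.toSpanSingleton_apply]
  exact hs

/-- the regular locus of a ring -/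
def RegLocus (S : Type u) [CommRing S] : Set (PrimeSpectrum S) :=
  {q | IsRegularLocalRing (Localization.AtPrime q.asIdeal)}

theorem open_of_J {R : Type u} [CommRing R]
    (hJ : ∀ (P : Ideal R) [P.IsPrime], IsOpen (RegLocus (R ⧸ P))) (P : Ideal R) [hP : P.IsPrime] :
    ∃ f₀ ∉ P, ∀ (Q : Ideal R) [Q.IsPrime], P ≤ Q → f₀ ∉ Q →
      IsRegularLocalRing
        (Localization.AtPrime Q ⧸ P.map (algebraMap R (Localization.AtPrime Q))) := by
  have hbot : (⊥ : Ideal (R ⧸ P)).IsPrime := Ideal.isPrime_bot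
  have hmem : (⟨⊥, hbot⟩ : PrimeSpectrum (R ⧸ P)) ∈ RegLocus (R ⧸ P) := by
    change IsRegularLocalRing (Localization.AtPrime (⊥ : Ideal (R ⧸ P)))
    let _ : Field (Localization.AtPrime (⊥ : Ideal (R ⧸ P))) := IsField.toField <| by
      simp [IsLocalRing.isField_iff_maximalIdeal_eq, ← Localization.AtPrime.map_eq_maximalIdeal]
    infer_instance
  obtain ⟨U, ⟨g, rfl⟩, hgmem, hgsub⟩ :=
    PrimeSpectrum.isTopologicalBasis_basic_opens.exists_subset_of_mem_open hmem (hJ P)
  obtain ⟨f₀, rfl⟩ := Ideal.Quotient.mk_surjective g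
  have hf₀ : f₀ ∉ P := by
    intro h1
    apply hgmem
    rw [Ideal.Quotient.eq_zero_iff_mem.2 h1]
    exact Ideal.zero_mem _
  refine ⟨f₀, hf₀, fun Q hQ hPQ hfQ => ?_⟩
  have hprime := isPrime_map_mk hPQ
  apply quot_regular hPQ
  have h2 : (⟨Q.map (Ideal.Quotient.mk P), hprime⟩ : PrimeSpectrum (R ⧸ P)) ∈
      RegLocus (R ⧸ P) := by
    apply hgsub
    intro h3
    apply hfQ
    have hcomap : (Q.map (Ideal.Quotient.mk P)).comap (Ideal.Quotient.mk P) = Q := by
      rw [Ideal.comap_map_of_surjective _ Ideal.Quotient.mk_surjective, ← RingHom.ker_eq_comap_bot,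
        Ideal.mk_ker, sup_eq_left.2 hPQ]
    rw [← hcomap, Ideal.mem_comap]
    exact h3
  exact h2

end

end Pool.Agent.R688.FPR
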