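import Pool.Agent.R688.FPR.Frob

set_option autoImplicit false

/-!
# The order of an element along the primes of a regular ring
-/

universe u v w

namespace Pool.Agent.R688.FPR

open IsLocalRing TensorProduct Pool.Agent.W418.LU2

section

theorem mem_mul_span_range {B : Type u} [CommRing B] (J : Ideal B) {ι : Type v} [Fintype ι]
    (y : ι → B) {z : B} (hz : z ∈ J * Ideal.span (Set.range y)) :
    ∃ μ : ι → B, (∀ i, μ i ∈ J) ∧ z = ∑ i, μ i * y i := by
  classical
  rw [← smul_eq_mul, Ideal.span, Submodule.mem_ideal_smul_span_iff_exists_sum] at hz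
  obtain ⟨a, ha, rfl⟩ := hz
  exact ⟨a, ha, by rw [Finsupp.sum_fintype _ _ (by simp)]; rfl⟩

variable {R : Type u} [CommRing R]

theorem isPrime_map_mk {P Q : Ideal R} (hPQ : P ≤ Q) [hQ : Q.IsPrime] :
    (Q.map (Ideal.Quotient.mk P)).IsPrime :=
  Ideal.map_isPrime_of_surjective Ideal.Quotient.mk_surjective (by rwa [Ideal.mk_ker])

theorem algebraMapSubmonoid_eq {P Q : Ideal R} (hPQ : P ≤ Q) [hQ : Q.IsPrime]
    [h : (Q.map (Ideal.Quotient.mk P)).IsPrime] :
    Algebra.algebraMapSubmonoid (R ⧸ P) Q.primeCompl =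
      (Q.map (Ideal.Quotient.mk P)).primeCompl := by
  have hcomap : (Q.map (Ideal.Quotient.mk P)).comap (Ideal.Quotient.mk P) = Q := by
    rw [Ideal.comap_map_of_surjective _ Ideal.Quotient.mk_surjective, ← RingHom.ker_eq_comap_bot,
      Ideal.mk_ker, sup_eq_left.2 hPQ]
  ext z
  obtain ⟨z, rfl⟩ := Ideal.Quotient.mk_surjective z
  have h1 : Ideal.Quotient.mk P z ∈ Q.map (Ideal.Quotient.mk P) ↔ z ∈ Q := by
    rw [← Ideal.mem_comap, hcomap]
  constructor
  · rintro ⟨y, hy, hyz⟩ hz
    apply hy
    change y ∈ Q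
    rw [← hcomap, Ideal.mem_comap]
    change Ideal.Quotient.mk P y = _ at hyz
    rw [hyz]
    exact hz
  · intro hz
    exact ⟨z, fun hzQ => hz (h1.2 hzQ), rfl⟩

/-- the quotient of a localization is the localization of the quotient -/
theorem quot_regular {P Q : Ideal R} (hPQ : P ≤ Q) [hQ : Q.IsPrime]
    [h : (Q.map (Ideal.Quotient.mk P)).IsPrime]
    (hr : IsRegularLocalRing (Localization.AtPrime (Q.map (Ideal.Quotient.mk P)))) :
    IsRegularLocalRing (Localization.AtPrime Q ⧸ P.map (algebraMap R (Localization.AtPrime Q))) := by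
  have h1 : IsLocalization (Algebra.algebraMapSubmonoid (R ⧸ P) Q.primeCompl)
    (Localization.AtPrime Q ⧸ P.map (algebraMap R (Localization.AtPrime Q))) := inferInstance
  rw [algebraMapSubmonoid_eq hPQ] at h1
  exact IsRegularLocalRing.of_ringEquiv (IsLocalization.algEquiv
    (Q.map (Ideal.Quotient.mk P)).primeCompl
    (Localization.AtPrime (Q.map (Ideal.Quotient.mk P)))
    (Localization.AtPrime Q ⧸ P.map (algebraMap R (Localization.AtPrime Q)))).toRingEquiv

/-- independence transfers from `R_P` to `R_Q` -/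
theorem ind_transfer {P Q : Ideal R} (hPQ : P ≤ Q) [P.IsPrime] [Q.IsPrime]
    [IsRegularLocalRing (Localization.AtPrime P)] [IsRegularLocalRing (Localization.AtPrime Q)]
    (hreg : IsRegularLocalRing
      (Localization.AtPrime Q ⧸ P.map (algebraMap R (Localization.AtPrime Q))))
    {h : ℕ} (x : Fin h → R) (hx : Ind fun i => algebraMap R (Localization.AtPrime P) (x i))
    (hPx : P.map (algebraMap R (Localization.AtPrime Q)) =
      Ideal.span (Set.range fun i => algebraMap R (Localization.AtPrime Q) (x i))) :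
    Ind fun i => algebraMap R (Localization.AtPrime Q) (x i) := by
  classical
  set B := Localization.AtPrime Q with hB
  set φ := algebraMap R B with hφ
  have hxP : ∀ i, x i ∈ P := by
    intro i
    have h1 := hx.1 i
    rwa [IsLocalization.AtPrime.to_map_mem_maximal_iff (Localization.AtPrime P) P] at h1
  refine ⟨fun i => ?_, fun c hc j => ?_⟩
  · rw [IsLocalization.AtPrime.to_map_mem_maximal_iff B Q]
    exact hPQ (hxP i)
  · by_contra hcj
    have h1 : ∑ i, c i * φ (x i) ∈ maximalIdeal B * P.map φ := by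
      apply Pool.Agent.H379R3.inf_sq_le (P.map φ)
      refine ⟨Ideal.sum_mem _ fun i _ => Ideal.mul_mem_left _ _ (Ideal.mem_map_of_mem _ (hxP i)), hc⟩
    rw [hPx] at h1
    obtain ⟨μ, hμ, h2⟩ := mem_mul_span_range _ _ h1
    -- the coefficient `c j - μ j` is a unit
    have h3 : IsUnit (c j - μ j) := by
      by_contra h4
      apply hcj
      have h5 := Ideal.add_mem _ ((mem_maximalIdeal _).2 h4) (hμ j)
      rwa [sub_add_cancel] at h5
    have h4 : (c j - μ j) * φ (x j) = - ∑ i ∈ Finset.univ.erase j, (c i - μ i) * φ (x i) := by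
      rw [eq_neg_iff_add_eq_zero, Finset.add_sum_erase Finset.univ
        (fun i => (c i - μ i) * φ (x i)) (Finset.mem_univ j)]
      simp_rw [sub_mul, Finset.sum_sub_distrib]
      rw [h2, sub_self]
    have h5 : φ (x j) ∈ (Ideal.span (x '' {i | i ≠ j})).map φ := by
      obtain ⟨u, hu⟩ := h3
      have h6 : φ (x j) = ↑(u⁻¹) * ((c j - μ j) * φ (x j)) := by
        rw [← hu, ← mul_assoc, Units.inv_mul, one_mul]
      rw [h6, h4]
      refine Ideal.mul_mem_left _ _ (neg_mem (Ideal.sum_mem _ fun i hi => ?_))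
      refine Ideal.mul_mem_left _ _ (Ideal.mem_map_of_mem _ (Ideal.subset_span ⟨i, ?_, rfl⟩))
      exact Finset.ne_of_mem_erase hi
    rw [IsLocalization.algebraMap_mem_map_algebraMap_iff Q.primeCompl B] at h5
    obtain ⟨t, ht, ht2⟩ := h5
    have h6 : {i | i ≠ j} = ((Finset.univ.erase j : Finset (Fin h)) : Set (Fin h)) := by
      ext i; simp
    rw [h6, Ideal.span, Submodule.mem_span_image_finset_iff_exists_fun] at ht2
    obtain ⟨d, hd⟩ := ht2
    have h7 : ∑ i ∈ Finset.univ.erase j, (if h : i ∈ Finset.univ.erase j then d ⟨i, h⟩ else 0) * x i =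
        t * x j := by
      rw [← hd, ← Finset.sum_attach (Finset.univ.erase j), Finset.univ_eq_attach]
      refine Finset.sum_congr rfl fun i _ => ?_
      rw [dif_pos i.2]
      rfl
    have h8 := hx.2 (fun i => algebraMap R (Localization.AtPrime P) (if i = j then - t else
      if h : i ∈ Finset.univ.erase j then d ⟨i, h⟩ else 0)) (by
        simp_rw [← map_mul]
        rw [← map_sum, ← Finset.add_sum_erase Finset.univ _ (Finset.mem_univ j), if_pos rfl]
        have h9 : ∑ i ∈ Finset.univ.erase j, (if i = j then - t else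
            if h : i ∈ Finset.univ.erase j then d ⟨i, h⟩ else 0) * x i = t * x j := by
          rw [← h7]
          refine Finset.sum_congr rfl fun i hi => ?_
          rw [if_neg (Finset.ne_of_mem_erase hi)]
        rw [h9, neg_mul, neg_add_cancel, map_zero]
        exact Ideal.zero_mem _) j
    rw [if_pos rfl, IsLocalization.AtPrime.to_map_mem_maximal_iff (Localization.AtPrime P) P] at h8
    apply ht
    have h10 : t ∈ P := by simpa using neg_mem h8
    exact hPQ h10

/-- a form of degree `n` in `x` with a unit coefficient has order at most `n` -/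
theorem order_le {B : Type u} [CommRing B] [IsRegularLocalRing B] {h : ℕ} {x : Fin h → B}
    (hx : Ind x) {n : ℕ} (a : (Fin h → ℕ) → B) {m₀ : Fin h → ℕ} (hm₀ : m₀ ∈ TT (ι := Fin h) n)
    (ha : IsUnit (a m₀)) :
    ∑ m ∈ TT (ι := Fin h) n, a m * mo x m ∉ maximalIdeal B ^ (n + 1) := by
  classical
  intro hmem
  obtain ⟨k, w, hw, hd⟩ := hx.extend
  have hz : Ind (Sum.elim x w) := ind_of_span hw (by
    rw [hd, Fintype.card_sum, Fintype.card_fin, Fintype.card_fin])
  have hwI : Ind w := hz.comp Sum.inr Sum.inr_injective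
  have hreg := hwI.regular
  set C := B ⧸ Ideal.span (Set.range w) with hC
  have hq : Ind fun i => Ideal.Quotient.mk (Ideal.span (Set.range w)) (x i) :=
    hz.quot _ Ideal.Quotient.mk_surjective (Ideal.mk_ker)
  have hspan : maximalIdeal C =
      Ideal.span (Set.range fun i => Ideal.Quotient.mk (Ideal.span (Set.range w)) (x i)) := by
    have h1 : (maximalIdeal B).map (Ideal.Quotient.mk (Ideal.span (Set.range w))) =
        maximalIdeal C := Pool.Agent.H379R3.map_mk_maximalIdeal _
    rw [← h1, ← hw, Ideal.map_span]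
    apply le_antisymm
    · rw [Ideal.span_le]
      rintro _ ⟨_, ⟨i | i, rfl⟩, rfl⟩
      · exact Ideal.subset_span ⟨i, rfl⟩
      · have h2 : Ideal.Quotient.mk (Ideal.span (Set.range w)) (w i) = 0 :=
          Ideal.Quotient.eq_zero_iff_mem.2 (Ideal.subset_span ⟨i, rfl⟩)
        change Ideal.Quotient.mk (Ideal.span (Set.range w)) (w i) ∈ _
        rw [h2]
        exact Ideal.zero_mem _
    · rw [Ideal.span_le]
      rintro _ ⟨i, rfl⟩
      exact Ideal.subset_span ⟨_, ⟨Sum.inl i, rfl⟩, rfl⟩
  have h3 : ∑ m ∈ TT (ι := Fin h) n, Ideal.Quotient.mk (Ideal.span (Set.range w)) (a m) *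
      mo (fun i => Ideal.Quotient.mk (Ideal.span (Set.range w)) (x i)) m ∈
      Ideal.span (Set.range fun i => Ideal.Quotient.mk (Ideal.span (Set.range w)) (x i)) ^
        (n + 1) := by
    have h4 := Ideal.mem_map_of_mem (Ideal.Quotient.mk (Ideal.span (Set.range w))) hmem
    rw [Ideal.map_pow, Pool.Agent.H379R3.map_mk_maximalIdeal, map_sum] at h4
    rw [← hspan]
    convert h4 using 1
    refine Finset.sum_congr rfl fun m _ => ?_
    rw [map_mul]
    congr 1
    unfold mo
    rw [map_prod]
    exact Finset.prod_congr rfl fun i _ => (map_pow _ _ _).symm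
  have hP : HP fun i => Ideal.Quotient.mk (Ideal.span (Set.range w)) (x i) :=
    fun U i hi f hf => prm hq U i hi f hf
  have h4 := qr _ hP n _ h3 m₀ hm₀
  rw [← hspan, mem_maximalIdeal, mem_nonunits_iff] at h4
  exact h4 (ha.map _)

end

end Pool.Agent.R688.FPR
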