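import Mathlib

set_option autoImplicit false

/-!
# A purity criterion over a local ring
-/

universe u v w

namespace Pool.Agent.R688.FPR

open IsLocalRing TensorProduct

section

variable {A : Type u} [CommRing A] (n : Ideal A) (M : Type v) [AddCommGroup M] [Module A M]

/-- families that are independent modulo `n` are independent modulo `n ^ k` in the strong sense -/
def QF : Prop := ∀ (B : Type v) [Fintype B] (e : B → M),
  (∀ s : B → A, ∑ b, s b • e b ∈ n • (⊤ : Submodule A M) → ∀ b, s b ∈ n) →
  ∀ (k : ℕ) (s : B → A), ∑ b, s b • e b ∈ n ^ k • (⊤ : Submodule A M) → ∀ b, s b ∈ n ^ k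

variable {n M}

theorem top_le_of (N : Submodule A M) (h : ⊤ ≤ N ⊔ n • (⊤ : Submodule A M)) (k : ℕ) :
    ⊤ ≤ N ⊔ n ^ k • (⊤ : Submodule A M) := by
  induction k with
  | zero => rw [pow_zero, Ideal.one_eq_top, Submodule.top_smul]; exact le_sup_right
  | succ k ih =>
    refine ih.trans (sup_le le_sup_left ?_)
    calc n ^ k • (⊤ : Submodule A M) ≤ n ^ k • (N ⊔ n • (⊤ : Submodule A M)) :=
          Submodule.smul_mono le_rfl h
      _ = n ^ k • N ⊔ n ^ k • (n • (⊤ : Submodule A M)) := Submodule.smul_sup _ _ _
      _ ≤ N ⊔ n ^ (k + 1) • (⊤ : Submodule A M) := by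
          refine sup_le_sup Submodule.smul_le_right ?_
          rw [pow_succ, Submodule.mul_smul]

theorem exists_retraction [hn : n.IsMaximal] (hQ : QF n M) {c : M}
    (hc : c ∉ n • (⊤ : Submodule A M)) (k : ℕ) :
    ∃ ρ : M →ₗ[A] A ⧸ n ^ k, ρ c = 1 := by
  classical
  let _ : Field (A ⧸ n) := Ideal.Quotient.field n
  set V := M ⧸ n • (⊤ : Submodule A M) with hV
  have hc' : (Submodule.Quotient.mk c : V) ≠ 0 := by
    intro h
    exact hc ((Submodule.Quotient.mk_eq_zero _).1 h)
  have hli : LinearIndepOn (A ⧸ n) id ({(Submodule.Quotient.mk c : V)} : Set V) := by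
    apply LinearIndepOn.singleton
    exact hc'
  set b := Module.Basis.extend hli with hb
  have hbv : ∀ i, b i = (i : V) := fun i => Module.Basis.extend_apply_self hli i
  have hmem : (Submodule.Quotient.mk c : V) ∈ hli.extend (Set.subset_univ _) :=
    Module.Basis.subset_extend hli (Set.mem_singleton _)
  set i0 : hli.extend (Set.subset_univ _) := ⟨Submodule.Quotient.mk c, hmem⟩ with hi0
  -- lifts
  choose l hl using fun v : V => Submodule.Quotient.mk_surjective (n • (⊤ : Submodule A M)) v
  let e : hli.extend (Set.subset_univ _) → M := fun i => if i = i0 then c else l i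
  have he : ∀ i, (Submodule.Quotient.mk (e i) : V) = b i := by
    intro i
    rw [hbv]
    by_cases hi : i = i0
    · simp only [e, if_pos hi]; rw [hi]
    · simp only [e, if_neg hi]; exact hl _
  -- independence modulo `n`
  have hind : ∀ (T : Finset (hli.extend (Set.subset_univ _))) (s : T → A),
      ∑ t, s t • e t ∈ n • (⊤ : Submodule A M) → ∀ t, s t ∈ n := by
    intro T s hs t
    have h1 := linearIndependent_iff'.1 b.linearIndependent T
      (fun i => if h : i ∈ T then Ideal.Quotient.mk n (s ⟨i, h⟩) else 0) (by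
        rw [← Finset.sum_attach T]
        have h2 : (Submodule.Quotient.mk (∑ t, s t • e t) : V) = 0 :=
          (Submodule.Quotient.mk_eq_zero _).2 hs
        rw [← Submodule.mkQ_apply, map_sum, Finset.univ_eq_attach] at h2
        rw [← h2]
        refine Finset.sum_congr rfl fun i _ => ?_
        rw [dif_pos i.2, ← he, Submodule.mkQ_apply]
        rfl) t t.2
    rw [dif_pos t.2] at h1
    exact Ideal.Quotient.eq_zero_iff_mem.1 h1
  -- the module over `A ⧸ n ^ k`
  set W := M ⧸ n ^ k • (⊤ : Submodule A M) with hW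
  let f : hli.extend (Set.subset_univ _) → W := fun i => Submodule.Quotient.mk (e i)
  have hf : LinearIndependent (A ⧸ n ^ k) f := by
    rw [linearIndependent_iff']
    intro T g hg i hi
    choose g' hg' using fun i => Ideal.Quotient.mk_surjective (I := n ^ k) (g i)
    have h1 : ∑ t : T, g' t • e t ∈ n ^ k • (⊤ : Submodule A M) := by
      rw [← Submodule.Quotient.mk_eq_zero, ← Submodule.mkQ_apply, map_sum,
        Finset.univ_eq_attach, Finset.sum_attach T (fun t => (n ^ k • (⊤ : Submodule A M)).mkQ
          (g' t • e t)), ← hg]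
      refine Finset.sum_congr rfl fun j _ => ?_
      rw [← hg' j]
      rfl
    have h2 := hQ T (fun t => e t) (hind T) k (fun t => g' t) h1 ⟨i, hi⟩
    rw [← hg' i]
    exact Ideal.Quotient.eq_zero_iff_mem.2 h2
  have hsp : ⊤ ≤ Submodule.span (A ⧸ n ^ k) (Set.range f) := by
    have h1 : (⊤ : Submodule A M) ≤ Submodule.span A (Set.range e) ⊔ n • (⊤ : Submodule A M) := by
      intro z _
      have h2 : (Submodule.Quotient.mk z : V) ∈ Submodule.span (A ⧸ n) (Set.range b) := by
        rw [b.span_eq]; trivial
      have h3 : ∀ v : V, v ∈ Submodule.span (A ⧸ n) (Set.range b) →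
          ∃ y ∈ Submodule.span A (Set.range e), (Submodule.Quotient.mk y : V) = v := by
        intro v hv
        induction hv using Submodule.span_induction with
        | mem v hv =>
          obtain ⟨i, rfl⟩ := hv
          exact ⟨e i, Submodule.subset_span ⟨i, rfl⟩, he i⟩
        | zero => exact ⟨0, Submodule.zero_mem _, rfl⟩
        | add v w _ _ hv hw =>
          obtain ⟨y, hy, rfl⟩ := hv
          obtain ⟨y', hy', rfl⟩ := hw
          exact ⟨y + y', Submodule.add_mem _ hy hy', rfl⟩
        | smul a v _ hv =>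
          obtain ⟨y, hy, rfl⟩ := hv
          obtain ⟨a, rfl⟩ := Ideal.Quotient.mk_surjective a
          exact ⟨a • y, Submodule.smul_mem _ _ hy, rfl⟩
      obtain ⟨y, hy, hyz⟩ := h3 _ h2
      have h4 : z - y ∈ n • (⊤ : Submodule A M) := (Submodule.Quotient.eq _).1 hyz.symm
      have h5 : z = y + (z - y) := by abel
      rw [h5]
      exact Submodule.add_mem_sup hy h4
    have h2 := top_le_of _ h1 k
    rintro w -
    obtain ⟨z, rfl⟩ := Submodule.Quotient.mk_surjective _ w
    have h3 := h2 (Submodule.mem_top (x := z))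
    obtain ⟨y, hy, y', hy', rfl⟩ := Submodule.mem_sup.1 h3
    have h4 : (Submodule.Quotient.mk (y + y') : W) = Submodule.Quotient.mk y := by
      rw [Submodule.Quotient.mk_add, (Submodule.Quotient.mk_eq_zero _).2 hy', add_zero]
    rw [h4]
    clear h4 h3
    induction hy using Submodule.span_induction with
    | mem v hv =>
      obtain ⟨i, rfl⟩ := hv
      exact Submodule.subset_span ⟨i, rfl⟩
    | zero => exact Submodule.zero_mem _
    | add v w _ _ hv hw => exact Submodule.add_mem _ hv hw
    | smul a v _ hv => 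
      exact Submodule.smul_mem _ (Ideal.Quotient.mk (n ^ k) a) hv
  let B := Module.Basis.mk hf hsp
  refine ⟨((B.coord i0).restrictScalars A).comp (n ^ k • (⊤ : Submodule A M)).mkQ, ?_⟩
  have h1 : (n ^ k • (⊤ : Submodule A M)).mkQ c = B i0 := by
    rw [Module.Basis.mk_apply]
    simp only [f, e, if_pos rfl]
    rfl
  rw [LinearMap.comp_apply, h1, LinearMap.restrictScalars_apply, Module.Basis.coord_apply,
    Module.Basis.repr_self, Finsupp.single_eq_same]

end

end Pool.Agent.R688.FPR
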