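import Pool.Agent.R688.FPR.Pure

set_option autoImplicit false

/-!
# A purity criterion over a local ring: all modules
-/

universe u v w

namespace Pool.Agent.R688.FPR

open IsLocalRing TensorProduct

section

variable {A : Type u} [CommRing A] [IsLocalRing A] [IsNoetherianRing A]
  {M : Type v} [AddCommGroup M] [Module A M]

theorem tmul_fin (hQ : QF (maximalIdeal A) M) {c : M}
    (hc : c ∉ maximalIdeal A • (⊤ : Submodule A M)) (P : Type w) [AddCommGroup P] [Module A P]
    [Module.Finite A P] (x : P) (h : x ⊗ₜ[A] c = 0) : x = 0 := by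
  by_contra hx
  have h1 : ∃ k : ℕ, x ∉ maximalIdeal A ^ k • (⊤ : Submodule A P) := by
    by_contra hcon
    push Not at hcon
    have h2 := Ideal.iInf_pow_smul_eq_bot_of_isLocalRing (M := P) (maximalIdeal A)
      (Ideal.IsPrime.ne_top inferInstance)
    have h3 : x ∈ (⊥ : Submodule A P) := by
      rw [← h2]
      exact (Submodule.mem_iInf _).2 hcon
    exact hx ((Submodule.mem_bot A).1 h3)
  obtain ⟨k, hk⟩ := h1
  obtain ⟨ρ, hρ⟩ := exists_retraction hQ hc k
  have h2 : x ⊗ₜ[A] (1 : A ⧸ maximalIdeal A ^ k) = 0 := by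
    have h3 := congrArg (ρ.lTensor P) h
    rwa [LinearMap.lTensor_tmul, map_zero, hρ] at h3
  have h3 := congrArg (TensorProduct.tensorQuotEquivQuotSMul P (maximalIdeal A ^ k)) h2
  rw [map_zero, ← map_one (Ideal.Quotient.mk (maximalIdeal A ^ k)),
    TensorProduct.tensorQuotEquivQuotSMul_tmul_mk, one_smul] at h3
  exact hk ((Submodule.Quotient.mk_eq_zero _).1 h3)

theorem tmul_all (hQ : QF (maximalIdeal A) M) {c : M}
    (hc : c ∉ maximalIdeal A • (⊤ : Submodule A M)) (P : Type w) [AddCommGroup P] [Module A P]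
    (x : P) (h : x ⊗ₜ[A] c = 0) : x = 0 := by
  have hN : (Submodule.span A {x}).FG := ⟨{x}, by simp⟩
  have hxN : x ∈ Submodule.span A {x} := Submodule.mem_span_singleton_self x
  obtain ⟨N', hN', hle, he⟩ := Submodule.FG.exists_rTensor_fg_inclusion_eq (M := M) hN
    (x := (⟨x, hxN⟩ : Submodule.span A {x}) ⊗ₜ[A] c) (y := 0) (by
      rw [LinearMap.rTensor_tmul, map_zero]
      exact h)
  rw [LinearMap.rTensor_tmul, map_zero] at he
  have : Module.Finite A N' := Module.Finite.iff_fg.2 hN'
  have h1 := tmul_fin hQ hc N' _ he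
  have h2 := congrArg (Submodule.subtype N') h1
  simpa using h2

end

end Pool.Agent.R688.FPR
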